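import Pool.Agent.Helper96.ND.NASM0
import Pool.Agent.Helper77.PPL.Asm

/-!
# Project ND, packet N_ASM: from classes to characters, natural density (no hypotheses)
-/

set_option autoImplicit false

namespace Pool.Agent.Helper96.ND

theorem n_asm : Pool.Agent.Helper38.ND.N_ASM :=
  n_asm_of Pool.Agent.Helper77.PPL.d_cmp Pool.Agent.Helper77.PPL.d_bfn

end Pool.Agent.Helper96.ND
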