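import Pool.Agent.Helper38.ND.GoalsC

/-!
# Project ND, packet N_ASM: from classes to characters, natural density
-/

set_option autoImplicit false

namespace Pool.Agent.Helper96.ND

open NumberField Module Pool.Agent.Helper11.PP Pool.Agent.Helper77.PPB Pool.Agent.Helper38.ND
open Pool.Agent.Helper38.FD (Chr CutsOut)

/-- The abstract form. -/
theorem coreN {Cl Fi : Type} (nf : Cl → Fi) (A B : Set Cl) (ZN ZF : Set Fi)
    (cd : Fi → ℕ) (cc : Cl → ℕ) (hAB : A ⊆ B) (hFN : ZF ⊆ ZN)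
    (k2 : ∀ N ∈ ZN, {c | c ∈ B ∧ nf c = N}.ncard = 1)
    (k3 : ∀ c ∈ B, (c ∈ A ↔ nf c ∈ ZF)) (k4 : ∀ c ∈ A, cd (nf c) = cc c)
    (hcmp : ∃ C : ℕ, ∀ X : ℕ, {N | N ∈ ZN ∧ cd N ≤ X}.ncard ≤
      C * ({N | N ∈ ZF ∧ cd N ≤ C * X}.ncard + 1))
    (hbfn : ∀ X : ℕ, {N | N ∈ ZN ∧ cd N ≤ X}.Finite)
    (n : ℕ) (Bd : Fin n → Set Cl) (G : Set Fi) (Z : Set Cl) (θ : Fin n → ℝ) (hZ : Z.Finite)
    (hG : ∀ c ∈ A, c ∉ Z → nf c ∉ G → ∃ r, c ∈ Bd r)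
    (hfin : ∀ X : ℝ, {c | c ∈ A ∧ (cc c : ℝ) ≤ X}.Finite)
    (hdb : ∃ C X₀ : ℝ, 0 < X₀ ∧ ∀ X : ℝ, X₀ ≤ X →
      ({c | c ∈ A ∧ (cc c : ℝ) ≤ 2 * X}.ncard : ℝ) ≤ C * {c | c ∈ A ∧ (cc c : ℝ) ≤ X}.ncard)
    (hinf : A.Infinite)
    (hab : ∀ r, ∀ η : ℝ, 0 < η → ∀ᶠ X : ℝ in Filter.atTop,
      ({c | c ∈ A ∩ Bd r ∧ (cc c : ℝ) ≤ X}.ncard : ℝ) ≤
        (θ r + η) * {c | c ∈ A ∧ (cc c : ℝ) ≤ X}.ncard) :
    (∀ η : ℝ, 0 < η → ∀ᶠ X : ℕ in Filter.atTop,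
      ({x | x ∈ {x | x ∈ ZF ∧ x ∉ G} ∧ cd x ≤ X}.ncard : ℝ) ≤
        (∑ r, θ r + η) * {x | x ∈ ZF ∧ cd x ≤ X}.ncard) ∧
    (∑ r, θ r < 1 → ∃ c : ℝ, 0 < c ∧ ∀ᶠ X : ℕ in Filter.atTop,
      0 < ({x | x ∈ ZN ∧ cd x ≤ X}.ncard : ℝ) ∧
      c * {x | x ∈ ZN ∧ cd x ≤ X}.ncard ≤
        {x | x ∈ {x | x ∈ ZF ∧ x ∈ G} ∧ cd x ≤ X}.ncard) := by
  have hA : ∀ c ∈ A, nf c ∈ ZF := fun c hc => (k3 c (hAB hc)).1 hc
  have hinj : ∀ c ∈ A, ∀ c' ∈ A, nf c = nf c' → c = c' := by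
    intro c hc c' hc' h
    obtain ⟨d, hd⟩ := Set.ncard_eq_one.1 (k2 (nf c) (hFN (hA c hc)))
    have h1 : c ∈ {c' | c' ∈ B ∧ nf c' = nf c} := ⟨hAB hc, rfl⟩
    have h2 : c' ∈ {c' | c' ∈ B ∧ nf c' = nf c} := ⟨hAB hc', h.symm⟩
    rw [hd, Set.mem_singleton_iff] at h1 h2
    rw [h1, h2]
  have hsur : ∀ x ∈ ZF, ∃ c ∈ A, nf c = x := by
    intro x hx
    obtain ⟨d, hd⟩ := Set.ncard_eq_one.1 (k2 x (hFN hx))
    have h1 : d ∈ {c' | c' ∈ B ∧ nf c' = x} := by rw [hd]; rfl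
    exact ⟨d, (k3 d h1.1).2 (by rw [h1.2]; exact hx), h1.2⟩
  set a : ℝ → ℕ := fun X => {c | c ∈ A ∧ (cc c : ℝ) ≤ X}.ncard with ha
  have hmono : ∀ X Y : ℝ, X ≤ Y → a X ≤ a Y := fun X Y hXY =>
    Set.ncard_le_ncard (fun N hN => ⟨hN.1, hN.2.trans hXY⟩) (hfin Y)
  -- the counting functions agree
  have hb : ∀ Y : ℕ, {x | x ∈ ZF ∧ cd x ≤ Y}.ncard = a (Y : ℝ) := by
    intro Y
    have e : {x | x ∈ ZF ∧ cd x ≤ Y} = nf '' {c | c ∈ A ∧ (cc c : ℝ) ≤ Y} := by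
      ext x
      constructor
      · rintro ⟨hx, hxY⟩
        obtain ⟨c, hc, rfl⟩ := hsur x hx
        refine ⟨c, ⟨hc, ?_⟩, rfl⟩
        rw [← k4 c hc]
        exact_mod_cast hxY
      · rintro ⟨c, ⟨hc, hcY⟩, rfl⟩
        refine ⟨hA c hc, ?_⟩
        rw [k4 c hc]
        exact_mod_cast hcY
    rw [e]
    refine Set.InjOn.ncard_image ?_
    intro c hc c' hc' h
    exact hinj c hc.1 c' hc'.1 h
  have hfF : ∀ Y : ℕ, {x | x ∈ ZF ∧ cd x ≤ Y}.Finite := fun Y =>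
    (hbfn Y).subset fun x hx => ⟨hFN hx.1, hx.2⟩
  -- `a` tends to infinity
  have hgrow : ∀ M : ℝ, ∀ᶠ X : ℝ in Filter.atTop, M ≤ a X := by
    intro M
    obtain ⟨F, hF, hcard⟩ := hinf.exists_subset_card_eq (⌈M⌉₊)
    filter_upwards [Filter.eventually_ge_atTop ((∑ c ∈ F, cc c : ℕ) : ℝ)] with X hX
    have h1 : (F : Set Cl) ⊆ {c | c ∈ A ∧ (cc c : ℝ) ≤ X} := by
      intro c hc
      refine ⟨hF hc, le_trans ?_ hX⟩
      have h3 : cc c ≤ ∑ c ∈ F, cc c :=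
        Finset.single_le_sum (f := cc) (fun _ _ => Nat.zero_le _) hc
      exact_mod_cast h3
    have h2 := Set.ncard_le_ncard h1 (hfin X)
    rw [Set.ncard_coe_finset, hcard] at h2
    exact (Nat.le_ceil M).trans (by exact_mod_cast h2)
  have S2 : ∀ η : ℝ, 0 < η → ∀ᶠ X : ℕ in Filter.atTop,
      ({x | x ∈ {x | x ∈ ZF ∧ x ∉ G} ∧ cd x ≤ X}.ncard : ℝ) ≤
        (∑ r, θ r + η) * {x | x ∈ ZF ∧ cd x ≤ X}.ncard := by
    intro η hη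
    have hη' : 0 < η / (n + 1) := by positivity
    have hev : ∀ᶠ X : ℝ in Filter.atTop, ∀ r,
        ({c | c ∈ A ∩ Bd r ∧ (cc c : ℝ) ≤ X}.ncard : ℝ) ≤ (θ r + η / (n + 1)) * a X :=
      Filter.eventually_all.2 fun r => hab r _ hη'
    have hev2 := hgrow ((Z.ncard : ℝ) / (η / (n + 1)))
    have hev3 := tendsto_natCast_atTop_atTop.eventually (hev.and hev2)
    filter_upwards [hev3] with X hX
    obtain ⟨hX1, hX2⟩ := hX
    rw [hb]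
    have e : {x | x ∈ {x | x ∈ ZF ∧ x ∉ G} ∧ cd x ≤ X} ⊆
        nf '' (Z ∪ ⋃ r, {c | c ∈ A ∩ Bd r ∧ (cc c : ℝ) ≤ X}) := by
      rintro x ⟨⟨hx, hxG⟩, hxX⟩
      obtain ⟨c, hc, rfl⟩ := hsur x hx
      refine ⟨c, ?_, rfl⟩
      by_cases hcZ : c ∈ Z
      · exact Or.inl hcZ
      · obtain ⟨r, hr⟩ := hG c hc hcZ hxG
        refine Or.inr (Set.mem_iUnion.2 ⟨r, ⟨hc, hr⟩, ?_⟩)
        rw [← k4 c hc]
        exact_mod_cast hxX
    have hfU : (⋃ r, {c | c ∈ A ∩ Bd r ∧ (cc c : ℝ) ≤ X}).Finite :=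
      Set.finite_iUnion fun r => (hfin X).subset fun c hc => ⟨hc.1.1, hc.2⟩
    have h1 : {x | x ∈ {x | x ∈ ZF ∧ x ∉ G} ∧ cd x ≤ X}.ncard ≤
        Z.ncard + ∑ r, {c | c ∈ A ∩ Bd r ∧ (cc c : ℝ) ≤ X}.ncard :=
      calc {x | x ∈ {x | x ∈ ZF ∧ x ∉ G} ∧ cd x ≤ X}.ncard
          ≤ (nf '' (Z ∪ ⋃ r, {c | c ∈ A ∩ Bd r ∧ (cc c : ℝ) ≤ X})).ncard :=
            Set.ncard_le_ncard e ((hZ.union hfU).image _)
        _ ≤ (Z ∪ ⋃ r, {c | c ∈ A ∩ Bd r ∧ (cc c : ℝ) ≤ X}).ncard :=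
            Set.ncard_image_le (hZ.union hfU)
        _ ≤ Z.ncard + (⋃ r, {c | c ∈ A ∩ Bd r ∧ (cc c : ℝ) ≤ X}).ncard := Set.ncard_union_le _ _
        _ ≤ _ := Nat.add_le_add_left (Set.ncard_iUnion_le_of_fintype _) _
    have h2 : ({x | x ∈ {x | x ∈ ZF ∧ x ∉ G} ∧ cd x ≤ X}.ncard : ℝ) ≤
        Z.ncard + ∑ r, ({c | c ∈ A ∩ Bd r ∧ (cc c : ℝ) ≤ X}.ncard : ℝ) := by exact_mod_cast h1
    refine h2.trans ?_
    have h3 : (Z.ncard : ℝ) ≤ η / (n + 1) * a X := by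
      rw [div_le_iff₀ hη'] at hX2
      linarith
    have h4 : ∑ r, ({c | c ∈ A ∩ Bd r ∧ (cc c : ℝ) ≤ X}.ncard : ℝ) ≤
        ∑ r, (θ r + η / (n + 1)) * a X := Finset.sum_le_sum fun r _ => hX1 r
    have h5 : ∑ r : Fin n, (θ r + η / (n + 1)) * (a X : ℝ) =
        (∑ r, θ r) * a X + n * (η / (n + 1)) * a X := by
      rw [← Finset.sum_mul, Finset.sum_add_distrib, Finset.sum_const, Finset.card_univ,
        Fintype.card_fin, nsmul_eq_mul]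
      ring
    have h6 : η / (n + 1) * (a X : ℝ) + n * (η / (n + 1)) * a X = η * a X := by
      have h7 : (n : ℝ) + 1 ≠ 0 := by positivity
      field_simp
      ring
    rw [h5] at h4
    calc (Z.ncard : ℝ) + ∑ r, ({c | c ∈ A ∩ Bd r ∧ (cc c : ℝ) ≤ X}.ncard : ℝ)
        ≤ η / (n + 1) * a X + ((∑ r, θ r) * a X + n * (η / (n + 1)) * a X) := add_le_add h3 h4
      _ = (∑ r, θ r) * a X + (η / (n + 1) * a X + n * (η / (n + 1)) * a X) := by ring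
      _ = (∑ r, θ r + η) * a X := by rw [h6]; ring
  refine ⟨S2, fun hnt => ?_⟩
  obtain ⟨C, X₀, hX₀, hdb⟩ := hdb
  set C' : ℝ := max C 1 with hC'
  have hC1 : 1 ≤ C' := le_max_right _ _
  have hit : ∀ (l : ℕ) (X : ℝ), X₀ ≤ X → (a (2 ^ l * X) : ℝ) ≤ C' ^ l * a X := by
    intro l X hX
    induction l with
    | zero => simp
    | succ l ih =>
      have h1 : X₀ ≤ 2 ^ l * X := by
        have h2 : (1 : ℝ) ≤ 2 ^ l := one_le_pow₀ (by norm_num)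
        nlinarith
      have h2 : (a (2 * (2 ^ l * X)) : ℝ) ≤ C * a (2 ^ l * X) := hdb _ h1
      have h3 : (2 : ℝ) * (2 ^ l * X) = 2 ^ (l + 1) * X := by ring
      rw [h3] at h2
      calc (a (2 ^ (l + 1) * X) : ℝ) ≤ C * a (2 ^ l * X) := h2
        _ ≤ C' * a (2 ^ l * X) :=
          mul_le_mul_of_nonneg_right (le_max_left _ _) (Nat.cast_nonneg _)
        _ ≤ C' * (C' ^ l * a X) := mul_le_mul_of_nonneg_left ih (by linarith)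
        _ = C' ^ (l + 1) * a X := by ring
  set η : ℝ := (1 - ∑ r, θ r) / 2 with hη
  have hη0 : 0 < η := by
    rw [hη]
    linarith
  obtain ⟨Cn, hCn⟩ := hcmp
  have hM : (0 : ℝ) < Cn * (C' ^ Cn + 1) + 1 := by positivity
  refine ⟨η / (Cn * (C' ^ Cn + 1) + 1), by positivity, ?_⟩
  have hev3 := tendsto_natCast_atTop_atTop.eventually
    ((hgrow 1).and (Filter.eventually_ge_atTop X₀))
  filter_upwards [S2 η hη0, hev3] with X hX1 hX2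
  obtain ⟨hX2, hX3⟩ := hX2
  rw [hb] at hX1
  have hpos : 1 ≤ {N | N ∈ ZN ∧ cd N ≤ X}.ncard := by
    have h1 : {x | x ∈ ZF ∧ cd x ≤ X}.ncard ≤ {N | N ∈ ZN ∧ cd N ≤ X}.ncard :=
      Set.ncard_le_ncard (fun x hx => ⟨hFN hx.1, hx.2⟩) (hbfn X)
    rw [hb] at h1
    have h2 : 1 ≤ a X := by exact_mod_cast hX2
    omega
  refine ⟨by exact_mod_cast hpos, ?_⟩
  have h1 : ({N | N ∈ ZN ∧ cd N ≤ X}.ncard : ℝ) ≤ Cn * (a ((Cn * X : ℕ) : ℝ) + 1) := by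
    have := hCn X
    rw [hb] at this
    exact_mod_cast this
  have h2 : (a ((Cn * X : ℕ) : ℝ) : ℝ) ≤ C' ^ Cn * a X := by
    refine le_trans ?_ (hit Cn X hX3)
    have h3 : ((Cn * X : ℕ) : ℝ) ≤ 2 ^ Cn * (X : ℝ) := by
      rw [Nat.cast_mul]
      have h4 : (Cn : ℝ) ≤ 2 ^ Cn := by exact_mod_cast Nat.lt_two_pow_self.le
      exact mul_le_mul_of_nonneg_right h4 (Nat.cast_nonneg _)
    exact_mod_cast hmono _ _ h3
  have h3 : ({N | N ∈ ZN ∧ cd N ≤ X}.ncard : ℝ) ≤ (Cn * (C' ^ Cn + 1) + 1) * a X := by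
    have h4 : (1 : ℝ) ≤ a X := hX2
    have h5 : (a ((Cn * X : ℕ) : ℝ) : ℝ) + 1 ≤ (C' ^ Cn + 1) * a X := by
      rw [add_mul, one_mul]
      linarith
    have h6 : (Cn : ℝ) * (a ((Cn * X : ℕ) : ℝ) + 1) ≤ Cn * ((C' ^ Cn + 1) * a X) :=
      mul_le_mul_of_nonneg_left h5 (Nat.cast_nonneg _)
    have h7 : (0 : ℝ) ≤ a X := by linarith
    rw [add_mul, one_mul, mul_assoc]
    linarith
  have h4 : (a X : ℝ) ≤ {x | x ∈ {x | x ∈ ZF ∧ x ∉ G} ∧ cd x ≤ X}.ncard +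
      {x | x ∈ {x | x ∈ ZF ∧ x ∈ G} ∧ cd x ≤ X}.ncard := by
    have h5 : {x | x ∈ ZF ∧ cd x ≤ X} = {x | x ∈ {x | x ∈ ZF ∧ x ∉ G} ∧ cd x ≤ X} ∪
        {x | x ∈ {x | x ∈ ZF ∧ x ∈ G} ∧ cd x ≤ X} := by
      ext x
      constructor
      · rintro ⟨h6, h7⟩
        by_cases hx : x ∈ G
        · exact Or.inr ⟨⟨h6, hx⟩, h7⟩
        · exact Or.inl ⟨⟨h6, hx⟩, h7⟩
      · rintro (⟨h6, h7⟩ | ⟨h6, h7⟩)
        · exact ⟨h6.1, h7⟩
        · exact ⟨h6.1, h7⟩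
    have h6 : a X ≤ {x | x ∈ {x | x ∈ ZF ∧ x ∉ G} ∧ cd x ≤ X}.ncard +
        {x | x ∈ {x | x ∈ ZF ∧ x ∈ G} ∧ cd x ≤ X}.ncard := by
      rw [← hb, h5]
      exact Set.ncard_union_le _ _
    exact_mod_cast h6
  have h5 : η * a X ≤ {x | x ∈ {x | x ∈ ZF ∧ x ∈ G} ∧ cd x ≤ X}.ncard := by
    have h6 : (1 - (∑ r, θ r + η)) * (a X : ℝ) = η * a X := by
      rw [hη]
      ring
    have hX1' : ({x | x ∈ {x | x ∈ ZF ∧ x ∉ G} ∧ cd x ≤ X}.ncard : ℝ) ≤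
        (∑ r, θ r + η) * a X := hX1
    linarith
  refine le_trans ?_ h5
  rw [div_mul_eq_mul_div, div_le_iff₀ hM]
  calc η * ({N | N ∈ ZN ∧ cd N ≤ X}.ncard : ℝ) ≤ η * ((Cn * (C' ^ Cn + 1) + 1) * a X) :=
        mul_le_mul_of_nonneg_left h3 hη0.le
    _ = η * a X * (Cn * (C' ^ Cn + 1) + 1) := by ring

theorem n_asm_of (h1 : D_CMP) (h3 : D_BFN) : N_ASM := by
  intro p hp K K₁ _ _ _ _ _ ε nf cf k1 k2 k3 k4 k5 k6 n Bd G Z θ hθ hZ hG hab h0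
  have hq : 0 < p - 1 := by
    have := hp.out.two_le
    omega
  have hAB : ASet p K ε ⊆ BSet p K ε := fun c hc => by
    obtain ⟨hc1, a, ha, ho, -⟩ := hc
    exact ⟨hc1, a, ha, ho⟩
  have hFN : ChF p K ⊆ ChN p K := fun x hx => ⟨⟨hx.1.1, hx.1.2.1⟩, hx.2⟩
  have hone : ∀ x ∈ ChN p K, {c | c ∈ BSet p K ε ∧ (nf c, cf c) = x}.ncard = 1 := by
    rintro ⟨N, φ⟩ ⟨hN, hφ⟩
    obtain ⟨c, ⟨hc1, hc2, hc3⟩, huniq⟩ := k6 N hN φ hφ
    rw [Set.ncard_eq_one]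
    refine ⟨c, ?_⟩
    ext c'
    constructor
    · rintro ⟨h, he⟩
      exact huniq c' ⟨h, congrArg Prod.fst he, congrArg Prod.snd he⟩
    · intro h
      rw [Set.mem_singleton_iff] at h
      subst h
      exact ⟨hc1, Prod.ext hc2 hc3⟩
  have hfib : ∀ N ∈ CycN p K, {c | c ∈ BSet p K ε ∧ nf c = N}.Finite := by
    intro N hN
    apply Set.finite_of_ncard_ne_zero
    rw [k2 N hN]
    omega
  -- characters of a given field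
  have himg : ∀ N ∈ CycN p K, {x | x ∈ ChN p K ∧ x.1 = N} =
      (fun c => (nf c, cf c)) '' {c | c ∈ BSet p K ε ∧ nf c = N} := by
    intro N hN
    ext x
    constructor
    · rintro ⟨⟨hx1, hx2⟩, hxN⟩
      obtain ⟨c, ⟨hc1, hc2, hc3⟩, -⟩ := k6 x.1 hx1 x.2 hx2
      exact ⟨c, ⟨hc1, hc2.trans hxN⟩, Prod.ext hc2 hc3⟩
    · rintro ⟨c, ⟨hc1, hc2⟩, rfl⟩
      exact ⟨⟨k1 c hc1, k5 c hc1⟩, hc2⟩
  have hbfn : ∀ X : ℕ, {x | x ∈ ChN p K ∧ cond K x.1 ≤ X}.Finite := by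
    intro X
    have e : {x | x ∈ ChN p K ∧ cond K x.1 ≤ X} ⊆
        ⋃ N ∈ {N | N ∈ CycN p K ∧ cond K N ≤ X}, {x | x ∈ ChN p K ∧ x.1 = N} := by
      rintro x ⟨hx, hxX⟩
      rw [Set.mem_iUnion₂]
      exact ⟨x.1, ⟨hx.1, hxX⟩, hx, rfl⟩
    refine Set.Finite.subset ?_ e
    refine (h3 p K X).biUnion fun N hN => ?_
    rw [himg N hN.1]
    exact (hfib N hN.1).image _
  have hcmp : ∃ C : ℕ, ∀ X : ℕ, {x | x ∈ ChN p K ∧ cond K x.1 ≤ X}.ncard ≤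
      C * ({x | x ∈ ChF p K ∧ cond K x.1 ≤ C * X}.ncard + 1) := by
    obtain ⟨C, hC⟩ := h1 p K
    refine ⟨(p - 1) * C, fun X => ?_⟩
    have e1 : {x | x ∈ ChN p K ∧ cond K x.1 ≤ X}.ncard ≤
        (p - 1) * {N | N ∈ CycN p K ∧ cond K N ≤ X}.ncard := by
      classical
      rw [Set.ncard_eq_toFinset_card _ (hbfn X), Set.ncard_eq_toFinset_card _ (h3 p K X)]
      have hsub : (hbfn X).toFinset.image Prod.fst ⊆ (h3 p K X).toFinset := by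
        intro N hN
        rw [Finset.mem_image] at hN
        obtain ⟨x, hx, rfl⟩ := hN
        rw [Set.Finite.mem_toFinset] at hx ⊢
        exact ⟨hx.1.1, hx.2⟩
      refine (Finset.card_le_mul_card_image (f := Prod.fst) (hbfn X).toFinset (p - 1) ?_).trans
        (Nat.mul_le_mul_left _ (Finset.card_le_card hsub))
      intro N hN
      have hN' := hsub hN
      rw [Set.Finite.mem_toFinset] at hN'
      have hcN : {x | x ∈ ChN p K ∧ x.1 = N}.ncard ≤ p - 1 := by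
        rw [himg N hN'.1, ← k2 N hN'.1]
        exact Set.ncard_image_le (hfib N hN'.1)
      have hfN : {x | x ∈ ChN p K ∧ x.1 = N}.Finite := by
        rw [himg N hN'.1]
        exact (hfib N hN'.1).image _
      refine le_trans ?_ hcN
      rw [Set.ncard_eq_toFinset_card _ hfN]
      apply Finset.card_le_card
      intro x hx
      rw [Finset.mem_filter, Set.Finite.mem_toFinset] at hx
      rw [Set.Finite.mem_toFinset]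
      exact ⟨hx.1.1, hx.2⟩
    have e2 : {N | N ∈ CycF p K ∧ cond K N ≤ C * X}.ncard ≤
        {x | x ∈ ChF p K ∧ cond K x.1 ≤ (p - 1) * C * X}.ncard := by
      have hf : {x | x ∈ ChF p K ∧ cond K x.1 ≤ (p - 1) * C * X}.Finite :=
        (hbfn ((p - 1) * C * X)).subset fun x hx => ⟨hFN hx.1, hx.2⟩
      have hsub : {N | N ∈ CycF p K ∧ cond K N ≤ C * X} ⊆
          Prod.fst '' {x | x ∈ ChF p K ∧ cond K x.1 ≤ (p - 1) * C * X} := by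
        rintro N ⟨hN, hNX⟩
        have hN' : N ∈ CycN p K := ⟨hN.1, hN.2.1⟩
        have hne : {c | c ∈ BSet p K ε ∧ nf c = N}.Nonempty := by
          rw [Set.nonempty_iff_ne_empty]
          intro h0
          have h := k2 N hN'
          rw [h0, Set.ncard_empty] at h
          omega
        obtain ⟨c, hc, hcN⟩ := hne
        refine ⟨(N, cf c), ⟨⟨hN, ?_⟩, ?_⟩, rfl⟩
        · rw [← hcN]
          exact k5 c hc
        · refine hNX.trans ?_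
          rw [mul_assoc]
          exact Nat.le_mul_of_pos_left _ hq
      exact (Set.ncard_le_ncard hsub (hf.image _)).trans (Set.ncard_image_le hf)
    calc {x | x ∈ ChN p K ∧ cond K x.1 ≤ X}.ncard
        ≤ (p - 1) * {N | N ∈ CycN p K ∧ cond K N ≤ X}.ncard := e1
      _ ≤ (p - 1) * (C * ({N | N ∈ CycF p K ∧ cond K N ≤ C * X}.ncard + 1)) :=
        Nat.mul_le_mul_left _ (hC X)
      _ = (p - 1) * C * ({N | N ∈ CycF p K ∧ cond K N ≤ C * X}.ncard + 1) := by ring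
      _ ≤ (p - 1) * C * ({x | x ∈ ChF p K ∧ cond K x.1 ≤ (p - 1) * C * X}.ncard + 1) :=
        Nat.mul_le_mul_left _ (Nat.add_le_add_right e2 1)
  obtain ⟨hfin, hdb, hinf, -⟩ := h0
  have hfin' : ∀ X : ℝ, {c | c ∈ ASet p K ε ∧ ((condC K c : ℕ) : ℝ) ≤ X}.Finite := hfin
  obtain ⟨r1, r2⟩ := coreN (fun c => (nf c, cf c)) (ASet p K ε) (BSet p K ε) (ChN p K) (ChF p K)
    (fun x => cond K x.1) (fun c => condC K c) hAB hFN hone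
    (fun c hc => ⟨fun h => ⟨(k3 c hc).1 h, k5 c hc⟩, fun h => (k3 c hc).2 h.1⟩) k4 hcmp hbfn
    n Bd G Z θ hZ hG hfin' hdb hinf (fun r => (hab r).2.2.2)
  exact ⟨hbfn, r1, r2⟩

end Pool.Agent.Helper96.ND
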